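import Mathlib
import Pool.Agent.Q133.VetoMid

set_option autoImplicit false

/-!
# There is a veto interval graph that is not a midpoint veto interval graph
-/

namespace Pool.Agent.Results.MP_c8a11a_co.MidpointStrict

open Q133.VetoCount Q133.VetoMid

/-- There is a finite graph with a veto interval representation and without a veto interval
representation in which all veto marks are midpoints. -/
theorem result : ∃ (V : Type) (_ : Fintype V) (G : SimpleGraph V), IsVI G ∧ ¬ IsMVI G :=
  exists_vi_not_mvi

end Pool.Agent.Results.MP_c8a11a_co.MidpointStrict
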